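import Pool.Agent.W601.RP.Stm2

/-! Task RP-DUAL: characters continuous for the topology given by `H` come from `H`. -/

set_option autoImplicit false
open Filter Topology

namespace Pool.Agent.W563.RP
open Pool.Agent.W601.RP

theorem rep (v : TT) : ∃ x : ℝ, ((x : ℝ) : TT) = v ∧ |x| = ‖v‖ := by
  induction v using QuotientAddGroup.induction_on with
  | H x =>
    refine ⟨x - round x, ?_, ?_⟩
    · have h1 : (((round x : ℤ) : ℝ) : TT) = 0 := by
        rw [AddCircle.coe_eq_zero_iff]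
        exact ⟨round x, by simp⟩
      rw [AddCircle.coe_sub, h1, sub_zero]
    · exact (UnitAddCircle.norm_eq (x := x)).symm

theorem norm_two (v : TT) (h : ‖v‖ ≤ 1 / 4) : ‖2 • v‖ = 2 * ‖v‖ := by
  obtain ⟨x, hx, hx'⟩ := rep v
  have h1 : 2 • v = ((2 * x : ℝ) : TT) := by
    rw [← hx, two_nsmul, two_mul, AddCircle.coe_add]
  rw [h1, (AddCircle.norm_coe_eq_abs_iff 1 one_ne_zero).2, abs_mul, hx']
  · norm_num
  · rw [abs_mul, hx', abs_one, abs_two]
    linarith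

theorem zero_of_small (v : TT) (h : ∀ m : ℕ, ‖m • v‖ < 1 / 6) : v = 0 := by
  by_contra hv
  have hpos : 0 < ‖v‖ := norm_pos_iff.2 hv
  have key : ∀ j : ℕ, ‖(2 ^ j) • v‖ = 2 ^ j * ‖v‖ := by
    intro j
    induction j with
    | zero => simp
    | succ j ih =>
      rw [pow_succ', mul_smul, norm_two _ (by have := h (2 ^ j); linarith), ih]
      ring
  obtain ⟨j, hj⟩ := pow_unbounded_of_one_lt (1 / ‖v‖) one_lt_two
  have h1 := h (2 ^ j)
  rw [key] at h1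
  rw [div_lt_iff₀ hpos] at hj
  linarith

theorem pz_sub {n : ℕ} (z : Gm n) (g y : ℕ → TT) : pz z (g - y) = pz z g - pz z y := by
  unfold pz
  rw [← Finset.sum_sub_distrib]
  refine Finset.sum_congr rfl fun t _ => ?_
  rw [Pi.sub_apply, smul_sub]

theorem re_ge (v : TT) : -1 ≤ ((AddCircle.toCircle v : Circle) : ℂ).re := by
  have h1 := Complex.abs_re_le_norm ((AddCircle.toCircle v : Circle) : ℂ)
  rw [Circle.norm_coe] at h1
  exact (abs_le.1 h1).1

/-- the estimate for one exponent -/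
theorem est (hN : S_NULL) (hPZ : S_PZ) (hD1 : S_D1) (hD2 : S_D2) (hWW : S_WW) (hD4 : S_D4)
    (F : Finset (ℕ → TT)) (δ : ℝ) (hF : ∀ h ∈ F, h ∈ H) (y : ℕ → TT)
    (hy : ∀ k : ℕ →₀ ℤ, (∀ h ∈ F, ‖pr k h‖ < δ) → ‖pr k y‖ < 1 / 6) (hVy : Vh y) (hyH : y ∉ H)
    (ρ : ℝ) (hρ0 : 0 < ρ) (hρ : ∀ v : TT, δ ≤ ‖v‖ → ww v ≤ ρ)
    (ρ' : ℝ) (hρ'0 : 0 ≤ ρ') (m1 : ℕ) (hm1 : 1 ≤ m1)
    (hm1' : ∀ v : TT, ‖v‖ ≤ 1 / (m1 : ℝ) → ρ' ≤ ww v) (m : ℕ) :
    (ρ' ^ F.card) ^ m ≤ 3 * (m1 : ℝ) ^ F.card * ρ ^ m := by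
  classical
  obtain ⟨s, c, hs, hexp⟩ := hD4 F m hF
  -- the size `n`
  have hdiff : ∀ g ∈ s, ∃ t, g t ≠ y t := by
    intro g hg
    by_contra hcon
    push Not at hcon
    exact hyH ((funext hcon : g = y) ▸ hs g hg)
  obtain ⟨n, hn⟩ : ∃ n : ℕ, ∀ g ∈ s, ∃ t, t < n ∧ g t ≠ y t := by
    choose! τ hτ using hdiff
    refine ⟨s.sup τ + 1, fun g hg => ⟨τ g, ?_, hτ g hg⟩⟩
    have := Finset.le_sup (f := τ) hg
    omega
  set P : Gm n → ℝ := fun z => (∏ h ∈ F, ww (pz z h)) ^ m with hP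
  have hprod0 : ∀ z : Gm n, 0 ≤ ∏ h ∈ F, ww (pz z h) := fun z =>
    Finset.prod_nonneg fun h _ => (hWW.1 _).1
  have hP0 : ∀ z, 0 ≤ P z := fun z => pow_nonneg (hprod0 z) m
  -- orthogonality
  have horth : ∑ z : Gm n, P z * ((AddCircle.toCircle (-(pz z y)) : Circle) : ℂ).re = 0 := by
    have h1 : ∑ z : Gm n, ((P z : ℝ) : ℂ) * ((AddCircle.toCircle (-(pz z y)) : Circle) : ℂ) = 0 := by
      have h2 : ∀ z : Gm n, ((P z : ℝ) : ℂ) * ((AddCircle.toCircle (-(pz z y)) : Circle) : ℂ) =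
          ∑ g ∈ s, c g * ((AddCircle.toCircle (pz z (g - y)) : Circle) : ℂ) := by
        intro z
        have h3 := hexp n z
        rw [hP]
        simp only
        rw [h3, Finset.sum_mul]
        refine Finset.sum_congr rfl fun g _ => ?_
        rw [pz_sub, sub_eq_add_neg, AddCircle.toCircle_add, Circle.coe_mul]
        ring
      simp only [h2]
      rw [Finset.sum_comm]
      refine Finset.sum_eq_zero fun g hg => ?_
      rw [← Finset.mul_sum, hD1 n (g - y) ?_ ?_, mul_zero]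
      · intro t
        rw [Pi.sub_apply, smul_sub, hN.2 g (hs g hg) t, hVy t, sub_zero]
      · obtain ⟨t, ht1, ht2⟩ := hn g hg
        exact ⟨t, ht1, by rw [Pi.sub_apply]; exact sub_ne_zero.2 ht2⟩
    have h4 := congrArg Complex.re h1
    rw [Complex.re_sum, Complex.zero_re] at h4
    rw [← h4]
    refine Finset.sum_congr rfl fun z _ => ?_
    rw [Complex.re_ofReal_mul]
  -- pointwise bound
  have hpt : ∀ z : Gm n, P z / 2 - 3 / 2 * ρ ^ m ≤
      P z * ((AddCircle.toCircle (-(pz z y)) : Circle) : ℂ).re := by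
    intro z
    have hρm : 0 ≤ ρ ^ m := pow_nonneg hρ0.le m
    by_cases hB : ∀ h ∈ F, ‖pz z h‖ < δ
    · obtain ⟨k, hk⟩ := hPZ.2.2 n z
      have h1 : ‖pz z y‖ < 1 / 6 := by
        rw [← hk y]
        exact hy k fun h hh => by rw [hk h]; exact hB h hh
      have h2 := hWW.2.2.2 (-(pz z y)) (by rw [norm_neg]; exact h1)
      have h3 := mul_le_mul_of_nonneg_left h2 (hP0 z)
      linarith
    · push Not at hB
      obtain ⟨h, hh, hh'⟩ := hB
      have h1 : ∏ h ∈ F, ww (pz z h) ≤ ρ := by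
        rw [← Finset.mul_prod_erase F _ hh]
        have h2 : ∏ x ∈ F.erase h, ww (pz z x) ≤ 1 :=
          Finset.prod_le_one (fun x _ => (hWW.1 _).1) (fun x _ => (hWW.1 _).2)
        calc ww (pz z h) * ∏ x ∈ F.erase h, ww (pz z x) ≤ ρ * 1 :=
              mul_le_mul (hρ _ hh') h2 (Finset.prod_nonneg fun x _ => (hWW.1 _).1) hρ0.le
          _ = ρ := mul_one _
      have h2 : P z ≤ ρ ^ m := pow_le_pow_left₀ (hprod0 z) h1 m
      have h3 := mul_le_mul_of_nonneg_left (re_ge (-(pz z y))) (hP0 z)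
      linarith
  have hsum : ∑ z : Gm n, P z ≤ 3 * (Fintype.card (Gm n)) * ρ ^ m := by
    have h1 := Finset.sum_le_sum (s := (Finset.univ : Finset (Gm n))) fun z _ => hpt z
    rw [horth, Finset.sum_sub_distrib, ← Finset.sum_div, Finset.sum_const, nsmul_eq_mul,
      Finset.card_univ] at h1
    linarith
  -- lower bound
  obtain ⟨B', hB1, hB2⟩ : ∃ B' : Finset (Gm n), (∀ z ∈ B', ∀ h ∈ F, ‖pz z h‖ ≤ 1 / (m1 : ℝ)) ∧
      (Fintype.card (Gm n) : ℝ) ≤ (m1 : ℝ) ^ F.card * (B'.card : ℝ) :=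
    ⟨_, fun z hz => (Finset.mem_filter.1 hz).2, hD2 n F (fun h hh => hN.2 h (hF h hh)) m1 hm1⟩
  have hlow : (B'.card : ℝ) * (ρ' ^ F.card) ^ m ≤ ∑ z : Gm n, P z := by
    calc (B'.card : ℝ) * (ρ' ^ F.card) ^ m = ∑ z ∈ B', (ρ' ^ F.card) ^ m := by
          rw [Finset.sum_const, nsmul_eq_mul]
      _ ≤ ∑ z ∈ B', P z := by
          refine Finset.sum_le_sum fun z hz => ?_
          refine pow_le_pow_left₀ (pow_nonneg hρ'0 _) ?_ m
          rw [← Finset.prod_const]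
          exact Finset.prod_le_prod (fun _ _ => hρ'0) fun h hh => hm1' _ (hB1 z hz h hh)
      _ ≤ ∑ z : Gm n, P z :=
          Finset.sum_le_sum_of_subset_of_nonneg (Finset.subset_univ _) fun z _ _ => hP0 z
  have hcard : (0 : ℝ) < Fintype.card (Gm n) := by
    exact_mod_cast Fintype.card_pos
  have hm1pos : (0 : ℝ) < (m1 : ℝ) ^ F.card := pow_pos (by exact_mod_cast hm1) _
  have hp0 : 0 ≤ (ρ' ^ F.card) ^ m := pow_nonneg (pow_nonneg hρ'0 _) _
  have hfin : (Fintype.card (Gm n) : ℝ) * (ρ' ^ F.card) ^ m ≤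
      (Fintype.card (Gm n) : ℝ) * (3 * (m1 : ℝ) ^ F.card * ρ ^ m) := by
    calc (Fintype.card (Gm n) : ℝ) * (ρ' ^ F.card) ^ m ≤
        ((m1 : ℝ) ^ F.card * (B'.card : ℝ)) * (ρ' ^ F.card) ^ m := by gcongr
      _ = (m1 : ℝ) ^ F.card * ((B'.card : ℝ) * (ρ' ^ F.card) ^ m) := by ring
      _ ≤ (m1 : ℝ) ^ F.card * (3 * (Fintype.card (Gm n)) * ρ ^ m) := by
          exact mul_le_mul_of_nonneg_left (hlow.trans hsum) hm1pos.le
      _ = _ := by ring
  exact le_of_mul_le_mul_left hfin hcard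

theorem dual : S_NULL → S_RED → S_PZ → S_D1 → S_D2 → S_WW → S_D4 → S_DUAL := by
  intro hN _ hPZ hD1 hD2 hWW hD4 χ F δ hδ hF hχ
  set y : ℕ → TT := fun t => χ (Finsupp.single t 1) with hy
  have hsingle : ∀ (t : ℕ) (a : ℤ), χ (Finsupp.single t a) = a • y t := by
    intro t a
    have h1 : (Finsupp.single t a : ℕ →₀ ℤ) = a • Finsupp.single t 1 := by
      rw [Finsupp.smul_single, smul_eq_mul, mul_one]
    rw [h1, map_zsmul]
  have hχy : ∀ k : ℕ →₀ ℤ, χ k = pr k y := by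
    intro k
    conv_lhs => rw [← Finsupp.sum_single k]
    unfold pr
    rw [map_finsuppSum]
    exact Finsupp.sum_congr fun t _ => hsingle t (k t)
  have hpr : ∀ (t : ℕ) (a : ℤ) (h : ℕ → TT), pr (Finsupp.single t a) h = a • h t := by
    intro t a h
    unfold pr
    rw [Finsupp.sum_single_index]
    exact zero_smul _ _
  have hVy : Vh y := by
    intro t
    refine zero_of_small _ fun m => ?_
    have h1 : m • (N t • y t) = χ (Finsupp.single t ((m * N t : ℕ) : ℤ)) := by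
      rw [hsingle, natCast_zsmul, mul_smul]
    rw [h1]
    refine hχ _ fun h hh => ?_
    rw [hpr, natCast_zsmul, mul_smul, hN.2 h (hF h hh) t, smul_zero, norm_zero]
    exact hδ
  by_contra hcon
  have hyH : y ∉ H := fun h => hcon ⟨y, h, hχy⟩
  obtain ⟨ρ, hρ0, hρ1, hρ⟩ := hWW.2.1 δ hδ
  obtain ⟨r, hr⟩ : ∃ r : ℕ, r = F.card := ⟨_, rfl⟩
  set ε : ℝ := (1 - ρ) / (2 * (r + 1)) with hε
  have hr1 : (0 : ℝ) < 2 * ((r : ℝ) + 1) := by positivity
  have hε0 : 0 < ε := div_pos (by linarith) hr1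
  have hεr : ε * (2 * (r + 1)) = 1 - ρ := by
    rw [hε]
    field_simp
  have hrnn : (0 : ℝ) ≤ r := Nat.cast_nonneg _
  have hε1 : ε ≤ 1 / 2 := by nlinarith
  have hbern : ρ < (1 - ε) ^ r := by
    have h1 := one_add_mul_le_pow (a := -ε) (by linarith) r
    have h2 : (1 + -ε) = 1 - ε := by ring
    rw [h2] at h1
    have h3 : ρ < 1 + (r : ℝ) * -ε := by nlinarith
    linarith
  obtain ⟨m1, hm1, hm1'⟩ := hWW.2.2.1 (1 - ε) (by linarith)
  have hest := est hN hPZ hD1 hD2 hWW hD4 F δ hF y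
    (fun k hk => by rw [← hχy]; exact hχ k hk) hVy hyH ρ hρ0 hρ (1 - ε) (by linarith) m1 hm1 hm1'
  have hgt : 1 < (1 - ε) ^ r / ρ := by rwa [one_lt_div hρ0]
  obtain ⟨m, hm⟩ := pow_unbounded_of_one_lt (3 * (m1 : ℝ) ^ r) hgt
  have h1 := hest m
  rw [← hr] at h1
  rw [div_pow, lt_div_iff₀ (pow_pos hρ0 m)] at hm
  linarith

end Pool.Agent.W563.RP
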