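import Pool.Agent.W829.RP.Defs

/-! Products of convex bodies. -/

set_option autoImplicit false

namespace Pool.Agent.W563.RP.Pb

open MeasureTheory Set Module
open Pool.Agent.W829.RP

theorem pb : S_PB := by
  intro m d hm hd K hK
  refine ⟨⟨convex_pi fun i _ => (hK i).1, isCompact_univ_pi fun i => (hK i).2.1, ?_⟩, ?_⟩
  · rw [interior_pi_set Set.finite_univ, Set.univ_pi_nonempty_iff]
    exact fun i => (hK i).2.2
  · rw [Module.finrank_pi_fintype]
    exact Finset.sum_congr rfl fun i _ => finrank_euclideanSpace_fin

end Pool.Agent.W563.RP.Pb
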